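import Mathlib
import Pool.Agent.H39.NonBorel

set_option autoImplicit false

namespace Pool.Agent.Results.MP_a9bf58_lc.NotAnalytic

open Set Filter Topology TopologicalSpace

/-- The Effros Borel structure on the closed subsets of `U`. -/
@[instance_reducible] def effros (U : Type) [TopologicalSpace U] : MeasurableSpace (Closeds U) :=
  MeasurableSpace.generateFrom
    {A | ∃ V : Set U, IsOpen V ∧ A = {F : Closeds U | ((F : Set U) ∩ V).Nonempty}}

/-- Analytic subsets of a Borel space: Borel images of Borel subsets of Baire space. -/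
def IsAnalytic {X : Type} (m : MeasurableSpace X) (A : Set X) : Prop :=
  ∃ (B : Set (ℕ → ℕ)) (f : (ℕ → ℕ) → X),
    MeasurableSet B ∧ @Measurable _ _ _ m f ∧ A = f '' B

open Pool.Agent.H39.NonBorel

/-- The nodes of a tree, as points of Baire space. -/
def S (T : List ℕ → Bool) : Set (ℕ → ℕ) :=
  {x | ∃ n, (∀ k < n, x k ≠ 0) ∧ (∀ k, n ≤ k → x k = 0) ∧
    (n ≤ 1 ∨ ∀ k < n, T (res (fun i => x i - 1) k) = true)}

theorem S_countable (T : List ℕ → Bool) : (S T).Countable := by
  refine (countable_range fun f : ℕ →₀ ℕ => (f : ℕ → ℕ)).mono ?_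
  rintro x ⟨n, -, h, -⟩
  exact ⟨Finsupp.onFinset (Finset.range n) x fun k hk => by
    by_contra h'
    exact hk (h k (by simpa using h')), rfl⟩

theorem S_infinite (T : List ℕ → Bool) : (S T).Infinite := by
  refine infinite_of_injective_forall_mem (f := fun k : ℕ => Pi.single 0 (k + 1))
    (fun a b h => by simpa using congrFun h 0) fun k => ⟨1, ?_, fun i hi => ?_, Or.inl le_rfl⟩
  · simp
  · exact Pi.single_eq_of_ne (by omega) _

theorem cyl_mem (x : ℕ → ℕ) (n : ℕ) : {y : ℕ → ℕ | ∀ k ≤ n, y k = x k} ∈ 𝓝 x := by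
  have : ∀ᶠ y in 𝓝 x, ∀ k ∈ Finset.range (n + 1), y k = x k :=
    (eventually_all_finset _).2 fun i _ => ev_eq (continuous_apply i) x
  filter_upwards [this] with y hy k hk using hy k (Finset.mem_range.2 (by omega))

theorem S_eq {T : List ℕ → Bool} {y z : ℕ → ℕ} {n : ℕ} (hy : y ∈ S T) (hz : z ∈ S T)
    (h : ∀ k ≤ n, y k = z k) (h0 : y n = 0) : y = z := by
  obtain ⟨a, h1, h2, -⟩ := hy
  obtain ⟨b, h3, h4, -⟩ := hz
  funext k
  rcases le_or_gt k n with hk | hk
  · exact h k hk
  · have h5 : a ≤ n := by by_contra h5; exact h1 n (by omega) h0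
    have h6 : b ≤ n := by by_contra h6; exact h3 n (by omega) (h n le_rfl ▸ h0)
    rw [h2 k (by omega), h4 k (by omega)]

theorem wf {T : List ℕ → Bool} (hT : T ∉ IF) :
    closure (S T) = S T ∧ DiscreteTopology (S T) := by
  have h1 : ∀ x ∈ closure (S T), ∃ n, x n = 0 := by
    intro x hx
    by_contra h
    push Not at h
    refine hT ⟨fun i => x i - 1, fun n => ?_⟩
    obtain ⟨y, h1, m, -, h2, h3⟩ := mem_closure_iff_nhds.1 hx _ (cyl_mem x (n + 1))
    have h4 : n + 1 < m := by
      by_contra h4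
      exact h (n + 1) (h1 _ le_rfl ▸ h2 _ (by omega))
    rw [← (h3.resolve_left (by omega)) n (by omega)]
    exact congrArg T (res_eq_iff.2 fun i hi => by rw [h1 i (by omega)])
  constructor
  · refine Subset.antisymm (fun x hx => ?_) subset_closure
    obtain ⟨n, hn⟩ := h1 x hx
    obtain ⟨y, h2, h3⟩ := mem_closure_iff_nhds.1 hx _ (cyl_mem x n)
    have : x = y := funext fun k => by
      obtain ⟨z, h4, h5⟩ := mem_closure_iff_nhds.1 hx _ (cyl_mem x (max n k))
      rw [S_eq h3 h5 (fun i hi => (h2 i hi).trans (h4 i (le_max_of_le_left hi)).symm)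
        ((h2 n le_rfl).trans hn), h4 k (le_max_right _ _)]
    exact this ▸ h3
  · rw [discreteTopology_subtype_iff]
    intro x hx
    obtain ⟨n, hn⟩ := h1 x (subset_closure hx)
    rw [inf_principal_eq_bot]
    filter_upwards [self_mem_nhdsWithin, mem_nhdsWithin_of_mem_nhds (cyl_mem x n)] with y h2 h3 h4
    exact h2 (S_eq h4 hx h3 ((h3 n le_rfl).trans hn))

theorem not_wf {T : List ℕ → Bool} (hT : T ∈ IF) : ¬ DiscreteTopology (closure (S T)) := by
  obtain ⟨y, hy⟩ := hT
  let t : ℕ → ℕ → ℕ := fun n k => if k < n then y k + 1 else 0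
  have h1 : ∀ n, t n ∈ S T := fun n => ⟨n, fun k hk => by simp [t, hk],
    fun k hk => by simp [t, hk], Or.inr fun k hk => by
      rw [← hy k]
      exact congrArg T (res_eq_iff.2 fun i hi => by simp [t, hi.trans hk])⟩
  have h2 : Tendsto t atTop (𝓝 fun k => y k + 1) :=
    tendsto_of_res fun n => res_eq_iff.2 fun i hi => by simp [t, hi]
  rw [discreteTopology_subtype_iff]
  intro h
  have h3 := h _ (mem_closure_of_tendsto h2 (Eventually.of_forall h1))
  refine (Tendsto.neBot (f := t) (x := atTop) (tendsto_inf.2 ⟨tendsto_nhdsWithin_iff.2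
    ⟨h2, Eventually.of_forall fun n => ?_⟩, tendsto_principal.2
      (Eventually.of_forall fun n => subset_closure (h1 n))⟩)).ne h3
  intro h
  simpa [t] using congrFun h n

theorem result : ∀ (U : Type) [TopologicalSpace U] [PolishSpace U],
    (∃ e : (ℕ → ℕ) → U, IsClosedEmbedding e) →
    ¬ IsAnalytic ((effros U).prod (effros U))
      {p : Closeds U × Closeds U | Nonempty (p.1 ≃ₜ p.2)} := by
  rintro U _ _ ⟨e, he⟩ ⟨B, f, hB, hf, h⟩
  let := effros U
  let g : (List ℕ → Bool) → Closeds U := fun T =>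
    ⟨e '' closure (S T), he.isClosedMap _ isClosed_closure⟩
  have hV : ∀ V : Set U, IsOpen V → MeasurableSet {F : Closeds U | ((F : Set U) ∩ V).Nonempty} :=
    fun V h => MeasurableSpace.measurableSet_generateFrom ⟨V, h, rfl⟩
  have hg : Measurable g := by
    refine measurable_generateFrom ?_
    rintro _ ⟨V, h1, rfl⟩
    refine IsOpen.measurableSet (isOpen_iff_mem_nhds.2 fun T hT => ?_)
    obtain ⟨_, ⟨x, h2, rfl⟩, h3⟩ := hT
    obtain ⟨y, h4, n, h5, h6, h7⟩ := mem_closure_iff.1 h2 _ (h1.preimage he.continuous) h3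
    have : ∀ᶠ T' in 𝓝 T, ∀ k ∈ Finset.range n,
        T' (res (fun i => y i - 1) k) = T (res (fun i => y i - 1) k) :=
      (eventually_all_finset _).2 fun i _ => ev_eq (continuous_apply _) T
    filter_upwards [this] with T' hT'
    exact ⟨_, ⟨y, subset_closure ⟨n, h5, h6, h7.imp id fun h k hk =>
      (hT' k (Finset.mem_range.2 hk)).trans (h k hk)⟩, rfl⟩, h4⟩
  have heq : ∀ {X : Type} [MeasurableSpace X] {a b : X → Closeds U}, Measurable a → Measurable b →
      MeasurableSet {x | a x = b x} := by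
    intro X _ a b ha hb
    have : {x | a x = b x} = ⋂ V ∈ countableBasis U,
        {x | ((a x : Set U) ∩ V).Nonempty ↔ ((b x : Set U) ∩ V).Nonempty} := by
      ext x
      simp only [mem_ofPred_eq, mem_iInter]
      refine ⟨fun h V _ => by rw [h], fun h => Closeds.ext ?_⟩
      ext u
      rw [← (a x).isClosed.closure_eq, ← (b x).isClosed.closure_eq,
        (isBasis_countableBasis U).mem_closure_iff, (isBasis_countableBasis U).mem_closure_iff]
      exact forall₂_congr fun V hV => by rw [inter_comm V, inter_comm V, h V hV]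
    rw [this]
    exact MeasurableSet.biInter (countable_countableBasis U) fun V h =>
      measurableSet_setOfPred.2 ((measurableSet_setOfPred.1
        (ha (hV V (isOpen_of_mem_countableBasis h)))).iff
        (measurableSet_setOfPred.1 (hb (hV V (isOpen_of_mem_countableBasis h)))))
  have h0 : (fun _ => false) ∉ IF := by rintro ⟨y, hy⟩; simpa using hy 0
  have h1 : ∀ T, Nonempty (g T ≃ₜ g fun _ => false) ↔ T ∉ IF := by
    have h2 : ∀ T, T ∉ IF → DiscreteTopology (g T) ∧ Countable (g T) ∧ Infinite (g T) := by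
      intro T hT
      obtain ⟨h2, h3⟩ := wf hT
      have h4 : S T ≃ₜ g T := (he.isEmbedding.homeomorphImage _).trans
        (Homeomorph.setCongr (by simp [g, h2]))
      have := (S_countable T).to_subtype
      have := (S_infinite T).to_subtype
      exact ⟨h4.discreteTopology, h4.symm.injective.countable, Infinite.of_injective _ h4.injective⟩
    intro T
    obtain ⟨h3, h4, h5⟩ := h2 _ h0
    refine ⟨fun ⟨φ⟩ hT => not_wf hT ?_, fun hT => ?_⟩
    · exact ((he.isEmbedding.homeomorphImage _).trans φ).symm.discreteTopology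
    · obtain ⟨h6, h7, h8⟩ := h2 T hT
      exact ⟨(Classical.choice nonempty_equiv_of_countable).toHomeomorphOfDiscrete⟩
  have h2 : MeasurableSet {p : (List ℕ → Bool) × (ℕ → ℕ) | p.2 ∈ B ∧ (f p.2).1 = g p.1 ∧
      (f p.2).2 = g fun _ => false} :=
    (measurable_snd hB).inter ((heq (hf.fst.comp measurable_snd) (hg.comp measurable_fst)).inter
      (heq (hf.snd.comp measurable_snd) measurable_const))
  have h3 := h2.analyticSet.image_of_continuous continuous_fst
  refine not_analytic_compl_IF (Eq.subst ?_ h3)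
  ext T
  rw [mem_compl_iff, ← h1]
  have h4 := Set.ext_iff.1 h (g T, g fun _ => false)
  simp only [mem_ofPred_eq] at h4
  rw [h4]
  constructor
  · rintro ⟨⟨_, z⟩, ⟨h5, h6, h7⟩, rfl⟩
    exact ⟨z, h5, Prod.ext h6 h7⟩
  · rintro ⟨z, h5, h6⟩
    exact ⟨(T, z), ⟨h5, congrArg Prod.fst h6, congrArg Prod.snd h6⟩, rfl⟩

end Pool.Agent.Results.MP_a9bf58_lc.NotAnalytic
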